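import Mathlib

namespace Pool.Agent.H.MP_3e1352_an

open Set Pointwise

lemma atoms {β : Type*} {cf : β → β → Prop} (hs : ∀ x y, cf x y → cf y x) {D0 : Set β}
    (h0 : ∀ x ∈ D0, ∀ y ∈ D0, cf x y → x = y) {𝒜 : Set (Set β)}
    (hA : ∀ a ∈ 𝒜, ∀ x ∈ a, ∀ y ∈ a, cf x y → x = y) :
    ∃ D, (∀ x ∈ D, ∀ y ∈ D, cf x y → x = y) ∧ D0 ⊆ D ∧ (∀ x ∈ D, x ∈ D0 ∨ ∃ a ∈ 𝒜, a ⊆ D ∧ x ∈ a) ∧
      ∀ a ∈ 𝒜, a ⊆ D ∨ ∃ x ∈ a, ∃ y ∈ D, cf x y ∧ x ≠ y := by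
  obtain ⟨D, h1, h2⟩ := zorn_subset_nonempty {D | (∀ x ∈ D, ∀ y ∈ D, cf x y → x = y) ∧
      ∀ x ∈ D, x ∈ D0 ∨ ∃ a ∈ 𝒜, a ⊆ D ∧ x ∈ a} (fun c h1 h2 _ => ⟨⋃₀ c, ⟨by
      rintro x ⟨s, hs, hx⟩ y ⟨t, ht, hy⟩
      rcases h2.total hs ht with h | h
      exacts [(h1 ht).1 x (h hx) y hy, (h1 hs).1 x hx y (h hy)], fun x ⟨s, hs, hx⟩ =>
        ((h1 hs).2 x hx).imp_right fun ⟨a, k1, k2, k3⟩ => ⟨a, k1, k2.trans (subset_sUnion_of_mem hs), k3⟩⟩,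
      fun s hs => subset_sUnion_of_mem hs⟩) D0 ⟨h0, fun _ => .inl⟩
  refine ⟨D, h2.prop.1, h1, h2.prop.2, fun a ha => or_iff_not_imp_right.2 fun k => ?_⟩
  push Not at k
  refine subset_union_right.trans (h2.le_of_ge (y := D ∪ a) ⟨?_, ?_⟩ subset_union_left)
  · rintro x (hx | hx) y (hy | hy) e
    exacts [h2.prop.1 x hx y hy e, (k y hy x hx (hs _ _ e)).symm, k x hx y hy e, hA a ha x hx y hy e]
  · rintro x (hx | hx)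
    exacts [(h2.prop.2 x hx).imp_right fun ⟨a, k1, k2, k3⟩ => ⟨a, k1, k2.trans subset_union_left, k3⟩,
      .inr ⟨a, ha, subset_union_right, hx⟩]

variable {G : Type} [Group G]

lemma two {ι : Type*} (φ : G) {cf : G × ι → G × ι → Prop} (hs : ∀ x y, cf x y → cf y x)
    (hr : ∀ x y g, cf x y → cf (x.1 * g, x.2) (y.1 * g, y.2)) {W Fb : Set G}
    (hW : ∀ p ∈ W, ∀ j : ℤ, p * φ ^ j ∈ W) (hF : ∀ p ∈ W, ∀ j : ℤ, p * φ ^ j ∈ Fb → p ∈ Fb)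
    {D0 : Set (G × ι)} (h0 : ∀ x ∈ D0, ∀ y ∈ D0, cf x y → x = y)
    (h1 : ∀ d ∈ D0, (d.1 ∈ W ∨ ∃ x, x.1 ∈ W ∧ cf x d) → ∀ j : ℤ, (d.1 * φ ^ j, d.2) ∈ D0)
    (h2 : ∀ p ∈ W, p ∉ Fb → ∀ (j : ℤ) i, cf (p, i) (p * φ ^ j, i) → p * φ ^ j = p) :
    ∃ D, (∀ x ∈ D, ∀ y ∈ D, cf x y → x = y) ∧ D0 ⊆ D ∧ (∀ d ∈ D, d ∈ D0 ∨ d.1 ∉ Fb) ∧
      (∀ d ∈ D, d.1 ∈ W → ∀ j : ℤ, (d.1 * φ ^ j, d.2) ∈ D) ∧
      ∀ x : G × ι, x.1 ∉ Fb → x ∈ D ∨ ∃ d ∈ D, cf x d ∧ x ≠ d := by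
  obtain ⟨D, d1, d2, d3, d4⟩ := atoms hs h0 (𝒜 := {a | ∃ x : G × ι, x.1 ∈ W ∧ x.1 ∉ Fb ∧
      a = range fun j : ℤ => (x.1 * φ ^ j, x.2)}) (by
    rintro _ ⟨x, k1, k2, rfl⟩ _ ⟨j, rfl⟩ _ ⟨l, rfl⟩ e
    have := h2 _ (hW _ k1 j) (fun e => k2 (hF _ k1 j e)) (l - j) x.2 (by simpa [mul_assoc, ← zpow_add] using e)
    rw [mul_assoc, ← zpow_add, add_sub_cancel] at this
    exact Prod.ext this.symm rfl)
  have d5 : ∀ d ∈ D, (d.1 ∈ W ∨ ∃ x, x.1 ∈ W ∧ cf x d) → ∀ j : ℤ, (d.1 * φ ^ j, d.2) ∈ D :=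
    fun d hd k j => by
      rcases d3 d hd with h | ⟨_, ⟨x, -, -, rfl⟩, h, l, rfl⟩
      exacts [d2 (h1 d h k j), h ⟨l + j, by simp [mul_assoc, zpow_add]⟩]
  obtain ⟨D', e1, e2, e3, e4⟩ := atoms hs d1 (𝒜 := {a | ∃ x : G × ι, x.1 ∉ W ∧ x.1 ∉ Fb ∧ a = {x}}) (by
    rintro _ ⟨x, -, -, rfl⟩ _ rfl _ rfl -; rfl)
  refine ⟨D', e1, d2.trans e2, fun d hd => ?_, fun d hd k j => ?_, fun x hx => ?_⟩
  · rcases e3 d hd with h | ⟨_, ⟨x, -, h, rfl⟩, -, rfl⟩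
    · rcases d3 d h with h | ⟨_, ⟨x, k1, k2, rfl⟩, -, l, rfl⟩
      exacts [.inl h, .inr fun e => k2 (hF _ k1 l e)]
    · exact .inr h
  · rcases e3 d hd with h | ⟨_, ⟨x, h, -, rfl⟩, -, rfl⟩
    exacts [e2 (d5 d h (.inl k) j), (h k).elim]
  by_cases k : x.1 ∈ W
  · rcases d4 _ ⟨x, k, hx, rfl⟩ with h | ⟨_, ⟨j, rfl⟩, d, k1, k2, k3⟩
    · exact .inl (e2 (h ⟨0, by simp⟩))
    · refine .inr ⟨_, e2 (d5 d k1 (.inr ⟨_, hW _ k j, k2⟩) (-j)), by simpa using hr _ _ (φ ^ (-j)) k2,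
        fun e => k3 ?_⟩
      rw [e]; simp
  · rcases e4 _ ⟨x, k, hx, rfl⟩ with h | ⟨_, rfl, h⟩
    exacts [.inl (h rfl), .inr h]

structure BS (τ φ : G) : Prop where
  h1 : φ * τ = τ ^ 2 * φ
  h2 : ∀ g (m j : ℤ), τ ^ m = g * φ ^ j * g⁻¹ → m = 0
  h3 : ∀ S : Set G, S.Finite → ∃ a : ℕ, ∀ n ≥ a, ∀ j : ℤ, (τ ^ n * φ ^ j * (τ ^ n)⁻¹ ∈ S → j = 0) ∧
    τ ^ n * φ ^ j ∉ S ∧ ∀ m : ℕ, τ ^ m * φ ^ j * τ ^ n ∉ S

variable (τ φ : G)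

def nr (n : ℕ) (x y : G) : Prop := x * y⁻¹ ∈ ({1, τ, τ⁻¹, φ, φ⁻¹} : Set G) ^ n

variable {τ φ} {m n : ℕ} {x y z : G}

lemma nr.trans (h : nr τ φ m x y) (k : nr τ φ n y z) : nr τ φ (m + n) x z := by
  rw [nr, pow_add]; exact ⟨_, h, _, k, by simp⟩

lemma nr.le (h : nr τ φ m x y) (k : m ≤ n) : nr τ φ n x y := pow_subset_pow_right (by simp) k h

lemma nr.rfl : nr τ φ n x x := nr.le (m := 0) (by simp [nr]) n.zero_le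

lemma nr.symm (h : nr τ φ n x y) : nr τ φ n y x := by
  have : ({1, τ, τ⁻¹, φ, φ⁻¹} : Set G)⁻¹ = {1, τ, τ⁻¹, φ, φ⁻¹} := by
    simp only [inv_insert, inv_singleton, inv_one, inv_inv]; ext; simp only [mem_insert_iff]; tauto
  rw [nr, ← this, inv_pow, mem_inv]; simpa [nr] using h

lemma nr.tri (h : nr τ φ m x y) (k : nr τ φ n z y) {l : ℕ} (e : m + n ≤ l) : nr τ φ l x z :=
  (h.trans k.symm).le e

lemma nr.mul (h : nr τ φ n x y) (g : G) : nr τ φ n (x * g) (y * g) := by simpa [nr, mul_assoc] using h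

lemma nr.one (h : nr τ φ n x y) : nr τ φ n (x * y⁻¹) 1 := by simpa using h.mul y⁻¹

lemma nr.of (h : nr τ φ n x 1) (p : G) : nr τ φ n (x * p) p := by simpa using h.mul p

lemma nr.fin (n : ℕ) (y : G) : {x | nr τ φ n x y}.Finite :=
  Set.Finite.preimage (s := ({1, τ, τ⁻¹, φ, φ⁻¹} : Set G) ^ n) (mul_left_injective y⁻¹).injOn (by
    induction n with
    | zero => simp
    | succ n ih => rw [pow_succ]; exact ih.mul (toFinite _))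

lemma nr_tau (n : ℕ) (x : G) : nr τ φ n (τ ^ n * x) x := by
  simpa [nr] using pow_mem_pow (s := {1, τ, τ⁻¹, φ, φ⁻¹}) (a := τ) (n := n) (by simp)

lemma nr_z {i : ℤ} (h : |i| ≤ n) (x : G) : nr τ φ n (τ ^ i * x) x := by
  obtain ⟨m, rfl | rfl⟩ := i.eq_nat_or_neg
  · exact (by simpa using nr_tau m x : nr τ φ m _ _).le (by simpa using h)
  · exact (by simpa using (nr_tau (τ := τ) (φ := φ) m ((τ ^ m)⁻¹ * x)).symm : nr τ φ m _ _).le (by simpa using h)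

lemma BS.com (h : BS τ φ) (n : ℕ) : ∀ s, nr τ φ n s 1 → ∃ b : ℕ, 0 < b ∧ b ≤ 4 ^ n ∧
    s * τ ^ 2 ^ n = τ ^ b * s := by
  have h1 : ∀ k : ℕ, φ * τ ^ k = τ ^ (2 * k) * φ := fun k => by
    rw [pow_mul]; exact (show SemiconjBy φ τ (τ ^ 2) from h.h1).pow_right k
  induction n with
  | zero => exact fun s hs => ⟨1, one_pos, le_rfl, by simp [show s = 1 by simpa [nr] using hs]⟩
  | succ n ih =>
    intro s hs
    rw [nr, pow_succ', inv_one, mul_one] at hs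
    obtain ⟨u, hu, v, hv, rfl⟩ := hs
    obtain ⟨b, b1, b2, b3⟩ := ih v (by simpa [nr] using hv)
    have b4 : v * τ ^ 2 ^ (n + 1) = τ ^ (2 * b) * v := by
      rw [pow_succ, pow_mul, mul_comm 2 b, pow_mul]; exact (show SemiconjBy v _ _ from b3).pow_right 2
    have b5 : ∀ u, Commute u τ → ∃ b : ℕ, 0 < b ∧ b ≤ 4 ^ (n + 1) ∧ u * v * τ ^ 2 ^ (n + 1) =
        τ ^ b * (u * v) := fun u hu => ⟨2 * b, by omega, by omega, by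
      rw [mul_assoc, b4, ← mul_assoc, (hu.pow_right _).eq, mul_assoc]⟩
    rcases hu with rfl | rfl | rfl | rfl | rfl
    exacts [b5 _ (.one_left _), b5 _ (.refl _), b5 _ (Commute.refl _).inv_left,
      ⟨2 * (2 * b), by omega, by omega, by beta_reduce; rw [mul_assoc, b4, ← mul_assoc, h1, mul_assoc]⟩,
      ⟨b, b1, by omega, by
        beta_reduce
        rw [mul_assoc, b4, ← mul_assoc, ← mul_assoc, inv_mul_eq_iff_eq_mul.2 (show τ ^ (2 * b) =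
          φ * (τ ^ b * φ⁻¹) by rw [← mul_assoc, h1]; simp)]⟩]

lemma BS.inj (h : BS τ φ) {g p : G} {m n j l : ℤ} (e1 : τ ^ m * p = g * φ ^ j) (e2 : τ ^ n * p = g * φ ^ l) :
    m = n := sub_eq_zero.1 (h.h2 g _ (j - l) (by
  rw [zpow_sub, zpow_sub, eq_mul_inv_of_mul_eq e1, eq_mul_inv_of_mul_eq e2]; group))

lemma BS.cnt (h : BS τ φ) (r : ℕ) : ∃ C : ℕ, ∀ (H : ℕ) (D : Set G) (p : G), 0 < H →
    (∀ d ∈ D, ∀ m : ℤ, |m| ≤ H → τ ^ m * d ∈ D → τ ^ m * d = d) →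
      {n | n < 3 * H ∧ ∃ d ∈ D, nr τ φ r d (τ ^ n * p)}.ncard ≤ C := by
  classical
  refine ⟨((nr.fin (τ := τ) (φ := φ) r 1).toFinset ×ˢ Finset.range (2 ^ r) ×ˢ
    Finset.range (3 * 4 ^ r)).card, fun H D p H0 hD => ?_⟩
  have : ∀ n, ∃ d, (∃ d ∈ D, nr τ φ r d (τ ^ n * p)) → d ∈ D ∧ nr τ φ r d (τ ^ n * p) := fun n => by
    by_cases k : ∃ d ∈ D, nr τ φ r d (τ ^ n * p)
    exacts [k.imp fun _ h _ => h, ⟨1, fun e => (k e).elim⟩]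
  choose d hd using this
  rw [← ncard_coe_finset]
  refine ncard_le_ncard_of_injOn (fun n => (d n * (τ ^ n * p)⁻¹, n % 2 ^ r, n / 2 ^ r * 4 ^ r / H))
    (fun n hn => ?_) (fun n hn l hl e => ?_)
  · simp only [Finset.coe_product, Finite.coe_toFinset, Finset.coe_range, mem_prod, mem_Iio]
    refine ⟨(hd n hn.2).2.one, Nat.mod_lt _ (by positivity), (Nat.div_lt_iff_lt_mul H0).2 ?_⟩
    nlinarith [Nat.div_le_self n (2 ^ r), hn.1, show 0 < 4 ^ r by positivity]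
  simp only [Prod.mk.injEq] at e
  obtain ⟨e1, e2, e3⟩ := e
  obtain ⟨b, b1, b2, b3⟩ := h.com r _ (hd l hl.2).2.one
  obtain ⟨t, ht⟩ : ∃ t : ℤ, t = (n / 2 ^ r : ℕ) - (l / 2 ^ r : ℕ) := ⟨_, rfl⟩
  have e4 : (n : ℤ) = 2 ^ r * t + l := by
    have k1 := Nat.div_add_mod n (2 ^ r)
    have k2 := Nat.div_add_mod l (2 ^ r)
    rw [e2] at k1
    zify at k1 k2 ht
    rw [ht]; linarith
  have e5 : τ ^ (b * t) * d l = d n := by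
    have := (show SemiconjBy _ _ _ from b3).zpow_right t
    rw [SemiconjBy, ← zpow_natCast τ b, ← zpow_natCast τ (2 ^ r), ← zpow_mul, ← zpow_mul] at this
    rw [eq_mul_of_mul_inv_eq e1, ← zpow_natCast τ n, e4, zpow_add, mul_assoc (τ ^ _), ← mul_assoc _ (τ ^ _)]
    push_cast at this
    rw [this]; simp [mul_assoc]
  have e6 : |t| * 4 ^ r ≤ H := by
    have k1 := Nat.lt_div_mul_add (a := n / 2 ^ r * 4 ^ r) H0
    have k2 := Nat.lt_div_mul_add (a := l / 2 ^ r * 4 ^ r) H0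
    have k3 := Nat.div_mul_le_self (n / 2 ^ r * 4 ^ r) H
    have k4 := Nat.div_mul_le_self (l / 2 ^ r * 4 ^ r) H
    rw [e3] at k1 k3
    generalize l / 2 ^ r * 4 ^ r / H * H = w, n / 2 ^ r = u, l / 2 ^ r = v at *
    zify at k1 k2 k3 k4
    rcases abs_cases t with ⟨k, -⟩ | ⟨k, -⟩ <;> rw [k, ht] <;> linarith
  have e7 := hD _ (hd l hl.2).1 (b * t) (by
    rw [abs_mul, Nat.abs_cast]
    nlinarith [abs_nonneg t, show (b : ℤ) ≤ 4 ^ r by exact_mod_cast b2]) (e5 ▸ (hd n hn.2).1)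
  have e8 := h.inj (g := d l) (p := d l) (m := b * t) (n := 0) (j := 0) (l := 0) (by rw [e7]; simp) (by simp)
  rw [(mul_eq_zero.1 e8).resolve_left (by omega)] at e4
  omega

end Pool.Agent.H.MP_3e1352_an
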