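import Pool.Agent.H.MP_3e1352_an.A

namespace Pool.Agent.H.MP_3e1352_an

open Set Pointwise

variable {G : Type} [Group G] (τ φ : G)

structure Lv where
  α : Type
  df : α
  col : α → Fin 3
  Loc : (G → α) → Prop
  R : ℕ
  loc : ∀ ζ ζ', (∀ x, nr τ φ R x 1 → ζ x = ζ' x) → Loc ζ → Loc ζ'

def nU (N r : ℕ) (x : G) : Prop := ∃ n ≥ N, ∃ j : ℤ, nr τ φ r x (τ ^ n * φ ^ j)

def nA (A : Set G) (r : ℕ) (x : G) : Prop := ∃ a ∈ A, nr τ φ r x a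

variable {τ φ}

def Lv.val (L : Lv τ φ) (ζ : G → L.α) (p : G) : Prop := L.Loc fun x => ζ (x * p)

def Lv.C (L : Lv τ φ) : Set (G → Fin 3) := {c | ∃ ζ, (∀ p, L.val ζ p) ∧ ∀ x, c x = L.col (ζ x)}

def Lv.E (L : Lv τ φ) (N : ℕ) (F : Set G) (c : G → Fin 3) : Prop := ∀ (A : Set G) (ζ : G → L.α),
  (∀ p, nA τ φ A L.R p → L.val ζ p) → (∀ x ∈ A, nU τ φ N L.R x → ∀ j : ℤ, x * φ ^ j ∈ A) →
  (∀ x, nA τ φ A L.R x → nU τ φ N L.R x → ∀ j : ℤ, ζ (x * φ ^ j) = ζ x) →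
  (∀ f ∈ F, ¬nA τ φ A (4 * L.R) f) → ∃ ζ', (∀ p, L.val ζ' p) ∧ (∀ a ∈ A, ζ' a = ζ a) ∧
    (∀ n ≥ N, L.col (ζ' (τ ^ n * φ)) = L.col (ζ' (τ ^ n))) ∧ ∀ f ∈ F, L.col (ζ' f) = c f

variable {N m n : ℕ} {x y : G} {A : Set G}

lemma nU.tr (h : nU τ φ N n y) (k : nr τ φ m x y) {l : ℕ} (e : m + n ≤ l) : nU τ φ N l x :=
  let ⟨a, h1, j, h2⟩ := h; ⟨a, h1, j, (k.trans h2).le e⟩

lemma nU.mul (h : nU τ φ N n y) (j : ℤ) : nU τ φ N n (y * φ ^ j) :=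
  let ⟨a, h1, l, h2⟩ := h; ⟨a, h1, l + j, by simpa [mul_assoc, zpow_add] using h2.mul (φ ^ j)⟩

lemma nA.tr (h : nA τ φ A n y) (k : nr τ φ m x y) {l : ℕ} (e : m + n ≤ l) : nA τ φ A l x :=
  let ⟨a, h1, h2⟩ := h; ⟨a, h1, (k.trans h2).le e⟩

lemma nA.le (h : nA τ φ A n y) {l : ℕ} (e : n ≤ l) : nA τ φ A l y := h.tr (m := 0) nr.rfl (by omega)

lemma nU.le (h : nU τ φ N n y) {l : ℕ} (e : n ≤ l) : nU τ φ N l y := h.tr (m := 0) nr.rfl (by omega)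

lemma nA.mul {R : ℕ} (hA : ∀ x ∈ A, nU τ φ N R x → ∀ j : ℤ, x * φ ^ j ∈ A) (h : nA τ φ A n y)
    (k : nU τ φ N m y) (e : n + m ≤ R) (j : ℤ) : nA τ φ A n (y * φ ^ j) :=
  let ⟨a, h1, h2⟩ := h; ⟨_, hA a h1 (k.tr h2.symm e) j, h2.mul _⟩

lemma Lv.val.of {L : Lv τ φ} {ζ ζ' : G → L.α} {p : G} (h : L.val ζ p)
    (k : ∀ x, nr τ φ L.R x p → ζ x = ζ' x) : L.val ζ' p := L.loc _ _ (fun _ e => k _ (e.of p)) h

lemma Lv.val.mul {L : Lv τ φ} {ζ : G → L.α} {p g : G} (h : L.val ζ (p * g)) :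
    L.val (fun x => ζ (x * g)) p := by simpa [Lv.val, mul_assoc] using h

lemma Lv.add (L : Lv τ φ) {F F' : Set G} {c c' : G → Fin 3} (h : L.E N F c) (hc : c' ∈ L.C)
    (h1 : ∀ f ∈ F, ¬nA τ φ F' (4 * L.R) f) (h2 : ∀ f ∈ F', ¬nU τ φ N (3 * L.R) f) {c'' : G → Fin 3}
    (h3 : ∀ f ∈ F, c'' f = c f) (h4 : ∀ f ∈ F', c'' f = c' f) : L.E N (F ∪ F') c'' := by
  classical
  intro A ζ k1 k2 k3 k4
  obtain ⟨z, z1, z2⟩ := hc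
  have k5 : ∀ x, nU τ φ N L.R x → ¬nA τ φ F' (2 * L.R) x := fun x h ⟨f, f1, f2⟩ =>
    h2 f f1 (h.tr f2.symm (by omega))
  have k6 : ∀ x, nA τ φ A (2 * L.R) x → ¬nA τ φ F' (2 * L.R) x := fun x h ⟨f, f1, f2⟩ =>
    k4 f (.inr f1) (h.tr f2.symm (by omega))
  obtain ⟨ζ', e1, e2, e3, e4⟩ := h (A ∪ F') (fun x => if nA τ φ F' (2 * L.R) x then z x else ζ x) (by
    rintro p ⟨a, a1 | a1, a2⟩
    · exact (k1 p ⟨a, a1, a2⟩).of fun x hx => (if_neg (k6 x ⟨a, a1, (hx.trans a2).le (by omega)⟩)).symm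
    · exact (z1 p).of fun x hx => (if_pos ⟨a, a1, (hx.trans a2).le (by omega)⟩).symm) (by
    rintro x (hx | hx) k j
    exacts [.inl (k2 x hx k j), (k5 x k ⟨x, hx, nr.rfl⟩).elim]) (by
    rintro x ⟨a, a1 | a1, a2⟩ k j
    · rw [if_neg (k5 _ (k.mul j)), if_neg (k5 _ k), k3 x ⟨a, a1, a2⟩ k]
    · exact (k5 x k ⟨a, a1, a2.le (by omega)⟩).elim) (by
    rintro f hf ⟨a, a1 | a1, a2⟩
    exacts [k4 f (.inl hf) ⟨a, a1, a2⟩, h1 f hf ⟨a, a1, a2⟩])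
  refine ⟨ζ', e1, fun a ha => by rw [e2 a (.inl ha), if_neg (k6 a ⟨a, ha, nr.rfl⟩)], e3, ?_⟩
  rintro f (hf | hf)
  · rw [e4 f hf, h3 f hf]
  · rw [e2 f (.inr hf), if_pos ⟨f, hf, nr.rfl⟩, h4 f hf, z2]

lemma nr_phi (x : G) : nr τ φ 1 (φ * x) x := by rw [nr, pow_one]; simp

lemma nr.eq (h : nr τ φ 0 x y) : x = y := by rwa [nr, pow_zero, mem_one, mul_inv_eq_one] at h

lemma BS.base (h : BS τ φ) : ∃ (L : Lv τ φ) (a : ℕ), (∀ c ∈ L.C, c φ ≠ c 1) ∧ ∀ N ≥ a, ∀ c, L.E N ∅ c := by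
  obtain ⟨a, ha⟩ := h.h3 {φ, φ⁻¹} (toFinite _)
  refine ⟨⟨Fin 3, 0, id, fun ζ => ζ φ ≠ ζ 1, 1, fun ζ ζ' k e => by
    rwa [← k φ (by simpa using nr_phi (τ := τ) (φ := φ) 1), ← k 1 nr.rfl]⟩, a, fun c ⟨ζ, k1, k2⟩ => by
      simpa [Lv.val, k2] using k1 1, fun N hN c A ζ k1 k2 k3 _ => ?_⟩
  replace k1 : ∀ p ∈ A, ζ (φ * p) ≠ ζ p := fun p hp => by simpa [Lv.val] using k1 p ⟨p, hp, nr.rfl⟩
  obtain ⟨D, d1, d2, d3, d4, d5⟩ := two φ (cf := fun x y : G × Fin 3 => x.1 = y.1 ∨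
    x.2 = y.2 ∧ (y.1 = φ * x.1 ∨ x.1 = φ * y.1)) (W := {x | nU τ φ N 0 x}) (Fb := A)
    (D0 := {d | d.1 ∈ A ∧ d.2 = ζ d.1}) (fun x y => by tauto) (fun x y g => by
      simp only [← mul_assoc, mul_left_inj]; exact id) (fun p h j => h.mul j)
    (fun p h j e => by simpa using k2 _ e ((nU.mul h j).le zero_le_one) (-j)) (by
      rintro x ⟨x1, x2⟩ y ⟨y1, y2⟩ (e | ⟨e, e' | e'⟩)
      exacts [Prod.ext e (by rw [x2, y2, e]), (k1 _ x1 (by rw [← e', ← x2, ← y2, e])).elim,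
        (k1 _ y1 (by rw [← e', ← x2, ← y2, e])).elim]) (by
      rintro x ⟨x1, x2⟩ k j
      have : nU τ φ N 1 x.1 := by
        rcases k with k | ⟨y, k, e | ⟨-, e | e⟩⟩
        exacts [nU.le k zero_le_one, nU.le (e ▸ k) zero_le_one, nU.tr k (e ▸ nr_phi _) le_rfl,
          nU.tr k (e ▸ (nr_phi _).symm) le_rfl]
      exact ⟨k2 _ x1 this j, x2.trans (k3 _ ⟨_, x1, nr.rfl⟩ this j).symm⟩) (by
      rintro p ⟨n, n1, l, n2⟩ - j i (e | ⟨-, e⟩)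
      · exact e.symm
      obtain rfl := n2.eq
      rw [(ha n (hN.trans n1) j).1 (e.imp (fun e => ?_) fun e => ?_), zpow_zero, mul_one]
      · rw [mul_assoc, ← zpow_add, add_comm, zpow_add, ← mul_assoc, ← mul_assoc, mul_left_inj] at e
        exact mul_inv_eq_of_eq_mul e
      · rw [mul_assoc (τ ^ n), ← zpow_add, add_comm, zpow_add, ← mul_assoc, ← mul_assoc, mul_left_inj] at e
        exact mul_inv_eq_of_eq_mul (eq_inv_mul_of_mul_eq (by rw [← mul_assoc, ← e])))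
  have d6 : ∀ p b b', (p, b) ∈ D → (p, b') ∈ D → b = b' := fun p b b' e e' =>
    congrArg Prod.snd (d1 _ e _ e' (.inl rfl))
  have d7 : ∀ p, ∃ b, (p, b) ∈ D := fun p => by
    by_cases hp : p ∈ A
    · exact ⟨ζ p, d2 ⟨hp, rfl⟩⟩
    by_contra! k
    have : ∀ b, (φ * p, b) ∈ D ∨ (φ⁻¹ * p, b) ∈ D := fun b => by
      obtain ⟨⟨q, b'⟩, e1, rfl | ⟨rfl, rfl | e⟩, -⟩ := (d5 (p, b) hp).resolve_left (k b)
      exacts [(k _ e1).elim, .inl e1, .inr (by rwa [inv_mul_eq_of_eq_mul e])]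
    rcases this 0 with e0 | e0 <;> rcases this 1 with e1 | e1 <;> rcases this 2 with e2 | e2 <;>
      first | cases d6 _ _ _ e0 e1 | cases d6 _ _ _ e0 e2 | cases d6 _ _ _ e1 e2
  choose z hz using d7
  refine ⟨z, fun p e => ?_, fun p hp => d6 _ _ _ (hz p) (d2 ⟨hp, rfl⟩), fun n hn => d6 _ _ _ (hz _)
    (by simpa using d4 _ (hz (τ ^ n)) ⟨n, hn, 0, by simpa using nr.rfl⟩ 1), by simp⟩
  have e1 := congrArg Prod.fst (d1 _ (hz p) _ (hz (φ * p)) (.inr ⟨by simpa using e.symm, .inl rfl⟩))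
  have e2 := h.h1
  rw [right_eq_mul.1 e1, one_mul, mul_one, sq, right_eq_mul] at e2
  simpa using h.h2 1 1 0 (by simpa using e2)

end Pool.Agent.H.MP_3e1352_an
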