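import Pool.Agent.H.MP_3e1352_an.B

namespace Pool.Agent.H.MP_3e1352_an

open Set Pointwise

variable {G : Type} [Group G] {τ φ : G}

lemma BS.step (h : BS τ φ) (L : Lv τ φ) (k : ℕ) : ∃ (L' : Lv τ φ) (g : ℕ), L'.C ⊆ L.C ∧
    (∀ c ∈ L.C, ∀ c' ∈ L'.C, ∃ n < g, ∀ x, nr τ φ k x 1 → c' (x * τ ^ n) = c x) ∧
    ∀ N F c, F.Finite → F.ncard ≤ k → L.E N F c → L'.E N F c := by
  classical
  have := (nr.fin (τ := τ) (φ := φ) k 1).to_subtype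
  let ι := {P : {x | nr τ φ k x 1} → Fin 3 // ∃ ζ, (∀ p, L.val ζ p) ∧ ∀ x, P x = L.col (ζ x)}
  have := Fintype.ofFinite ι
  choose y y1 y2 using fun i : ι => i.2
  obtain ⟨R, hR⟩ : ∃ R, R = L.R := ⟨_, rfl⟩
  obtain ⟨r, hr⟩ : ∃ r, r = 2 * k + 4 * R := ⟨_, rfl⟩
  obtain ⟨a, ha⟩ := h.h3 _ (nr.fin (τ := τ) (φ := φ) (3 * r) 1)
  obtain ⟨C, hC⟩ := h.cnt r
  have b0 := nr.fin (τ := τ) (φ := φ) r 1
  have b1 : ∀ F : Set G, F.Finite → {x | nA τ φ F r x}.Finite ∧ {x | nA τ φ F r x}.ncard ≤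
      {x | nr τ φ r x 1}.ncard * F.ncard := fun F hF => by
    have : {x | nA τ φ F r x} ⊆ (fun p : G × G => p.1 * p.2) '' {x | nr τ φ r x 1} ×ˢ F :=
      fun x ⟨f, f1, f2⟩ => ⟨(_, f), ⟨f2.one, f1⟩, by simp⟩
    exact ⟨((b0.prod hF).image _).subset this, (ncard_le_ncard this ((b0.prod hF).image _)).trans
      ((ncard_image_le (b0.prod hF)).trans_eq ncard_prod)⟩
  obtain ⟨H, hH⟩ : ∃ H, H = Fintype.card ι * C + {x | nr τ φ r x 1}.ncard * (a + k) + 1 := ⟨_, rfl⟩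
  obtain ⟨cf, hcf⟩ : ∃ cf : G × ι → G × ι → Prop, ∀ x y, cf x y ↔ nr τ φ r y.1 x.1 ∨
    x.2 = y.2 ∧ ∃ m : ℤ, |m| ≤ H ∧ y.1 = τ ^ m * x.1 := ⟨_, fun _ _ => Iff.rfl⟩
  have c1 : ∀ x y, cf x y → nr τ φ (r + H) y.1 x.1 := fun x y e => by
    rcases (hcf _ _).1 e with e | ⟨-, m, e1, e⟩
    exacts [e.le (by omega), e ▸ (nr_z e1 _).le (by omega)]
  have c2 : ∀ x y g, cf x y → cf (x.1 * g, x.2) (y.1 * g, y.2) := fun x y g e => (hcf _ _).2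
    (((hcf _ _).1 e).imp (·.mul g) fun ⟨e1, m, e2, e3⟩ => ⟨e1, m, e2, by simp [e3, mul_assoc]⟩)
  let L' : Lv τ φ := ⟨L.α × Set ι, (L.df, ∅), fun a => L.col a.1, fun ζ => L.Loc (fun x => (ζ x).1) ∧ (∀ i ∈ (ζ 1).2,
    (∀ x, nr τ φ k x 1 → L.col (ζ x).1 = L.col (y i x)) ∧ ∀ x, ∀ j ∈ (ζ x).2, cf (1, i) (x, j) →
      (1, i) = (x, j)) ∧ ∀ i, ∃ n < 3 * H, i ∈ (ζ (τ ^ n)).2, 4 * (r + H), by
    rintro ζ ζ' e ⟨e1, e2, e3⟩
    refine ⟨L.loc _ _ (fun x hx => by rw [e x (hx.le (by omega))]) e1, fun i hi => ?_,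
      fun i => (e3 i).imp fun n hn => ⟨hn.1, ?_⟩⟩
    · rw [← e 1 nr.rfl] at hi
      exact ⟨fun x hx => e x (hx.le (by omega)) ▸ (e2 i hi).1 x hx, fun x j hj e' =>
        (e2 i hi).2 x j (e x ((c1 _ _ e').le (by omega)) ▸ hj) e'⟩
    · exact e (τ ^ n) (by simpa using (nr_tau (τ := τ) (φ := φ) n 1).le (by omega)) ▸ hn.2⟩
  refine ⟨L', 3 * H, ?_, ?_, fun N F c hF hk hE A ζ k1 k2 k3 k4 => ?_⟩
  · rintro c ⟨ζ, k1, k2⟩
    exact ⟨fun x => (ζ x).1, fun p => (k1 p).1, k2⟩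
  · rintro c ⟨z, z1, z2⟩ c' ⟨ζ, k1, k2⟩
    obtain ⟨n, n1, n2⟩ := (k1 1).2.2 ⟨fun x => L.col (z x), z, z1, fun _ => rfl⟩
    refine ⟨n, n1, fun x hx => ?_⟩
    rw [k2, z2]
    exact (((k1 (τ ^ n)).2.1 _ (by simpa using n2)).1 x hx).trans (y2 _ ⟨x, hx⟩).symm
  rw [show L'.R = 4 * (r + H) from rfl] at k1 k2 k3 k4
  obtain ⟨f1, f2⟩ := b1 ((fun n => τ ^ n) '' Iio a ∪ F) (((finite_Iio a).image _).union hF)
  generalize hY : {x | nA τ φ ((fun n => τ ^ n) '' Iio a ∪ F) r x} = Y at f1 f2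
  replace hY : ∀ x, x ∈ Y ↔ nA τ φ ((fun n => τ ^ n) '' Iio a ∪ F) r x := fun x => hY ▸ Iff.rfl
  obtain ⟨D0, hD⟩ : ∃ D0 : Set (G × ι), ∀ d, d ∈ D0 ↔ nA τ φ A (r + 3 * H) d.1 ∧ d.2 ∈ (ζ d.1).2 :=
    ⟨_, fun _ => Iff.rfl⟩
  have g1 : ∀ d ∈ D0, nU τ φ N (r + H + r) d.1 → ∀ j : ℤ, (d.1 * φ ^ j, d.2) ∈ D0 := fun d hd e j => by
    rw [hD] at hd ⊢
    exact ⟨hd.1.mul k2 e (by omega) j, (k3 _ (hd.1.le (by omega)) (e.le (by omega)) j).symm ▸ hd.2⟩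
  obtain ⟨D, d1, d2, d3, d4, d5⟩ := two φ (cf := cf) (W := {x | nU τ φ N r x})
    (Fb := {p | nA τ φ A r p ∨ ∃ j : ℤ, p * φ ^ j ∈ Y}) (D0 := D0) (fun x y e => (hcf _ _).2
      (((hcf _ _).1 e).imp (·.symm) fun ⟨e1, m, e2, e3⟩ => ⟨e1.symm, -m, by simpa, by simp [e3]⟩)) c2
    (fun p e j => e.mul j) (fun p e j e' => e'.imp (fun e' => by
      simpa using nA.mul k2 e' (nU.mul e j) (by omega) (-j)) fun ⟨l, e'⟩ =>
        ⟨j + l, by rwa [zpow_add, ← mul_assoc]⟩) (fun x hx d hd e => by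
      rw [hD] at hx hd
      have := ((k1 x.1 (hx.1.le (by omega))).2.1 x.2 (by simpa using hx.2)).2 (d.1 * x.1⁻¹) d.2
        (by simpa using hd.2) (by simpa using c2 _ _ x.1⁻¹ e)
      rw [Prod.mk.injEq, eq_mul_inv_iff_mul_eq, one_mul] at this
      exact Prod.ext this.1 this.2) (fun d hd e => g1 d hd (e.elim (fun e => nU.le e (by omega))
        fun ⟨x, e, e'⟩ => nU.tr e (c1 _ _ e') le_rfl)) (by
      rintro p ⟨n, -, l, n2⟩ e j i e'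
      rcases (hcf _ _).1 e' with e' | ⟨-, m, -, e'⟩
      · have n1 : a ≤ n := not_lt.1 fun n1 => e (.inr ⟨-l, (hY _).2 ⟨_, .inl ⟨n, n1, rfl⟩, by
          simpa using n2.mul (φ ^ (-l))⟩⟩)
        have := (((n2.mul (φ ^ j)).symm.trans e').trans n2).one
        rw [(ha n n1 j).1 (by
          rw [mem_ofPred_eq]; convert this using 1 <;> first | omega | group), zpow_zero, mul_one]
      · simpa [h.inj (g := p) (n := 0) (l := 0) e'.symm (by simp)] using e')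
  have d6 : ∀ d ∈ D, ∀ d' ∈ D, nr τ φ r d'.1 d.1 → d = d' := fun d e d' e' e'' =>
    d1 d e d' e' ((hcf _ _).2 (.inl e''))
  have d7 : ∀ d ∈ D, d ∉ D0 → ¬nA τ φ A r d.1 ∧ d.1 ∉ Y := fun d e e' =>
    (not_or.1 ((d3 d e).resolve_left e')).imp_right fun e e' => e ⟨0, by simpa⟩
  obtain ⟨z, z1, z2⟩ : ∃ z : G → L.α, (∀ x, ∀ d ∈ D, d ∉ D0 → nr τ φ (k + 2 * R) x d.1 →
      z x = y d.2 (x * d.1⁻¹)) ∧ ∀ x, (¬∃ d ∈ D, d ∉ D0 ∧ nr τ φ (k + 2 * R) x d.1) → z x = (ζ x).1 := by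
    refine ⟨fun x => if e : ∃ d ∈ D, d ∉ D0 ∧ nr τ φ (k + 2 * R) x d.1 then
      y e.choose.2 (x * e.choose.1⁻¹) else (ζ x).1, fun x d e1 e2 e3 => ?_, fun x e => dif_neg e⟩
    have e : ∃ d ∈ D, d ∉ D0 ∧ nr τ φ (k + 2 * R) x d.1 := ⟨d, e1, e2, e3⟩
    beta_reduce
    rw [dif_pos e, d6 _ e.choose_spec.1 d e1 (e3.symm.tri e.choose_spec.2.2.symm (by omega))]
  have z3 : ∀ x, nA τ φ A (2 * R) x → z x = (ζ x).1 := fun x e => z2 x fun ⟨d, e1, e2, e3⟩ =>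
    (d7 d e1 e2).1 (e.tr e3.symm (by omega))
  have z4 : ∀ x, ∀ d ∈ D0, nr τ φ (k + 2 * R) x d.1 → z x = (ζ x).1 := fun x d e e' =>
    z2 x fun ⟨d', e1, e2, e3⟩ => e2 (d6 d (d2 e) d' e1 (e3.symm.tri e'.symm (by omega)) ▸ e)
  have z5 : ∀ x, nU τ φ N R x → ∀ d ∈ D, d ∉ D0 → nr τ φ (k + 2 * R) x d.1 → ∀ j : ℤ,
      (d.1 * φ ^ j, d.2) ∈ D ∧ (d.1 * φ ^ j, d.2) ∉ D0 := fun x e d e1 e2 e3 j =>
    ⟨d4 d e1 (e.tr e3.symm (by omega)) j, fun e' => e2 (by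
      simpa using g1 _ e' ((e.tr e3.symm (by omega)).mul j) (-j))⟩
  subst hR
  obtain ⟨w, w1, w2, w3, w4⟩ := hE (A ∪ {x | ∃ d ∈ D, nr τ φ k x d.1}) z (by
    rintro p ⟨x, e | ⟨d, e1, e2⟩, e3⟩
    · exact Lv.val.of (ζ := fun x => (ζ x).1) (k1 p ⟨x, e, e3.le (by omega)⟩).1 fun u e' =>
        (z3 u ⟨x, e, (e'.trans e3).le (by omega)⟩).symm
    by_cases e : d ∈ D0
    · exact Lv.val.of (ζ := fun x => (ζ x).1) (k1 p (((hD d).1 e).1.tr (e3.trans e2) (by omega))).1 fun u e' =>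
        (z4 u d e (((e'.trans e3).trans e2).le (by omega))).symm
    · exact (y1 d.2 (p * d.1⁻¹)).mul.of fun u e' =>
        (z1 u d e1 e (((e'.trans e3).trans e2).le (by omega))).symm) (by
    rintro x (e | ⟨d, e1, e2⟩) e' j
    exacts [.inl (k2 x e (e'.le (by omega)) j), .inr ⟨_, d4 d e1 (e'.tr e2.symm (by omega)) j, e2.mul _⟩]) (by
    rintro x ⟨u, e, e3⟩ e' j
    by_cases s : ∃ d ∈ D, d ∉ D0 ∧ nr τ φ (k + 2 * L.R) x d.1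
    · obtain ⟨d, s1, s2, s3⟩ := s
      rw [z1 x d s1 s2 s3, z1 _ _ (z5 x e' d s1 s2 s3 j).1 (z5 x e' d s1 s2 s3 j).2 (s3.mul _)]
      simp [mul_assoc]
    rw [z2 x s, z2 _ fun ⟨d, s1, s2, s3⟩ => s ⟨_, (z5 _ (e'.mul j) d s1 s2 s3 (-j)).1,
      (z5 _ (e'.mul j) d s1 s2 s3 (-j)).2, by simpa using s3.mul (φ ^ (-j))⟩, k3 x ?_ (e'.le (by omega))]
    rcases e with e | ⟨d, e1, e2⟩
    · exact ⟨u, e, e3.le (by omega)⟩
    · exact ((hD d).1 (of_not_not fun e => s ⟨d, e1, e, (e3.trans e2).le (by omega)⟩)).1.tr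
        (e3.trans e2) (by omega)) (by
    rintro f hf ⟨x, e | ⟨d, e1, e2⟩, e3⟩
    · exact k4 f hf ⟨x, e, e3.le (by omega)⟩
    by_cases e : d ∈ D0
    · exact k4 f hf (((hD d).1 e).1.tr (e3.trans e2) (by omega))
    · exact (d7 d e1 e).2 ((hY _).2 ⟨f, .inr hf, (e3.trans e2).symm.le (by omega)⟩))
  refine ⟨fun x => (w x, {i | (x, i) ∈ D}), fun p => ⟨w1 p, fun i hi => ⟨fun x hx => ?_,
    fun x j hj e => ?_⟩, fun i => ?_⟩, fun x hx => Prod.ext ((w2 x (.inl hx)).trans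
      (z3 x ⟨x, hx, nr.rfl⟩)) (Set.ext fun i => ⟨fun e => ((hD _).1 (of_not_not fun e' =>
        (d7 _ e e').1 ⟨x, hx, nr.rfl⟩)).2, fun e => d2 ((hD _).2 ⟨⟨x, hx, nr.rfl⟩, e⟩)⟩), w3, w4⟩
  · replace hi : (p, i) ∈ D := by simpa using hi
    have e' := (hx.of p).le (show k ≤ k + 2 * L.R by omega)
    dsimp only
    rw [w2 _ (.inr ⟨_, hi, hx.of p⟩)]
    by_cases e : (p, i) ∈ D0
    · rw [z4 _ _ e e']
      exact ((k1 p (((hD _).1 e).1.le (by omega))).2.1 i (by simpa using ((hD _).1 e).2)).1 x hx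
    · rw [z1 _ _ hi e e', mul_inv_cancel_right]
  · simpa [eq_comm (b := x)] using d1 _ hi _ hj (c2 _ _ p e)
  by_cases s : ∃ n < 3 * H, nA τ φ A r (τ ^ n * p)
  · obtain ⟨n, n1, n2⟩ := s
    obtain ⟨l, l1, l2⟩ := (k1 p (n2.tr (nr_tau n p).symm (by omega))).2.2 i
    refine ⟨l, l1, d2 ((hD _).2 ⟨n2.tr (m := 3 * H) ?_ (by omega), l2⟩)⟩
    simpa [zpow_sub, mul_assoc] using nr_z (τ := τ) (φ := φ) (i := l - n) (n := 3 * H)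
      (by rw [abs_le]; omega) (τ ^ n * p)
  by_contra! s'
  have u1 : Ico H (2 * H) ⊆ {n | ∃ j : ℤ, τ ^ n * p * φ ^ j ∈ Y} ∪ ⋃ j, {n | n < 3 * H ∧
      ∃ d ∈ {x | (x, j) ∈ D}, nr τ φ r d (τ ^ n * p)} := fun n ⟨n1, n2⟩ => by
    refine or_iff_not_imp_left.2 fun e => ?_
    obtain ⟨d, e1, e2, -⟩ := (d5 (τ ^ n * p, i) (not_or.2 ⟨fun e => s ⟨n, by omega, e⟩, e⟩)).resolve_left
      (s' n (by omega))
    rcases (hcf _ _).1 e2 with e2 | ⟨e2, m, e3, e4⟩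
    · exact mem_iUnion.2 ⟨d.2, by omega, d.1, e1, e2⟩
    rw [abs_le] at e3
    obtain ⟨l, hl⟩ := Int.eq_ofNat_of_zero_le (show 0 ≤ m + n by omega)
    rw [← zpow_natCast, ← mul_assoc, ← zpow_add, hl, zpow_natCast] at e4
    exact (s' l (by omega) (by rw [mem_ofPred_eq, ← e4, show i = d.2 from e2]; exact e1)).elim
  have u2 : ∀ n : ℕ, ∃ j : ℤ, (∃ j : ℤ, τ ^ n * p * φ ^ j ∈ Y) → τ ^ n * p * φ ^ j ∈ Y := fun n => by
    by_cases e : ∃ j : ℤ, τ ^ n * p * φ ^ j ∈ Y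
    exacts [e.imp fun _ e _ => e, ⟨0, fun e' => (e e').elim⟩]
  choose J hJ using u2
  have u3 : InjOn (fun n => τ ^ n * p * φ ^ J n) {n | ∃ j : ℤ, τ ^ n * p * φ ^ j ∈ Y} := fun n _ l _ e =>
    Nat.cast_injective (h.inj (g := τ ^ l * p * φ ^ J l) (p := p) (j := -J n) (l := -J l)
      (by rw [← show _ = τ ^ l * p * φ ^ J l from e]; simp) (by simp))
  have u4 := (ncard_le_ncard u1 ((f1.of_injOn hJ u3).union (finite_iUnion fun j =>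
    (finite_lt_nat _).subset fun n e => e.1))).trans ((ncard_union_le _ _).trans (add_le_add
    (ncard_le_ncard_of_injOn _ hJ u3 f1) ((ncard_iUnion_le_of_fintype _).trans (Finset.sum_le_card_nsmul
      _ _ C fun j _ => hC H _ p (by omega) fun d e m e1 e2 => (congrArg Prod.fst (d1 _ e _ e2
        ((hcf _ _).2 (.inr ⟨rfl, m, e1, rfl⟩)))).symm))))
  have u5 := (ncard_union_le _ F).trans (add_le_add (ncard_image_le (f := fun n => τ ^ n)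
    (finite_Iio a)) hk)
  simp only [ncard_Ico_nat, ncard_Iio_nat, Finset.card_univ, smul_eq_mul] at u4 u5
  have := f2.trans (Nat.mul_le_mul_left _ u5)
  omega

end Pool.Agent.H.MP_3e1352_an
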