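import Pool.Agent.H.MP_3e1352_an.C
import Pool.Agent.H.MP_c19a8f_an.D

namespace Pool.Agent.H.MP_3e1352_an

open Set Filter Topology

lemma bs : ∃ τ φ : Equiv.Perm ℚ, BS τ φ := by
  obtain ⟨τ, h1⟩ : ∃ τ : Equiv.Perm ℚ, ∀ (m : ℤ) x, (τ ^ m) x = x + m :=
    ⟨Equiv.addRight 1, fun m x => by simp⟩
  obtain ⟨φ, h2⟩ : ∃ φ : Equiv.Perm ℚ, ∀ (m : ℤ) x, (φ ^ m) x = 2 ^ m * x :=
    ⟨MulAction.toPermHom ℚˣ ℚ (Units.mk0 2 two_ne_zero), fun m x => by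
      rw [← map_zpow]; simp [Units.smul_def]⟩
  have h3 : ∀ (m : ℕ) x, (τ ^ m) x = x + m := fun m x => by simpa using h1 m x
  have h4 : ∀ (m : ℕ) x, (τ ^ m)⁻¹ x = x - m := fun m x => by simpa [sub_eq_add_neg] using h1 (-m) x
  refine ⟨τ, φ, Equiv.ext fun x => ?_, fun g m j e => ?_, fun S hS => ?_⟩
  · have a1 := h1 1
    have a2 := h2 1
    simp only [zpow_one] at a1 a2
    simp only [Equiv.Perm.mul_apply, a1, a2, h3]
    push_cast; ring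
  · simpa [h1, h2] using congrArg (· (g 0)) e
  obtain ⟨M, hM⟩ := (hS.image fun g => max (max (g 0 / (1 - (g 1 - g 0))) (g 0))
    (g 0 / (g 1 - g 0))).bddAbove
  obtain ⟨a, ha⟩ := exists_nat_gt M
  refine ⟨a, fun n hn j => ⟨fun e => by_contra fun k => ?_, fun e => ?_, fun m e => ?_⟩⟩ <;>
    have e1 := (hM ⟨_, e, rfl⟩).trans_lt (ha.trans_le (Nat.cast_le.2 hn)) <;>
    simp only [Equiv.Perm.mul_apply, h2, h3, h4, max_lt_iff] at e1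
  · have : (1 : ℚ) - 2 ^ j ≠ 0 := fun e => k (zpow_right_injective₀ two_pos (by norm_num)
      ((sub_eq_zero.1 e).symm.trans (zpow_zero _).symm))
    refine e1.1.1.ne ((div_eq_iff ?_).2 ?_)
    · convert this using 2; ring
    · ring
  · simpa using e1.1.2
  · have := e1.2
    rw [div_lt_iff₀ (by ring_nf; positivity)] at this
    nlinarith [Nat.cast_nonneg (α := ℚ) m]

lemma unc {Z : Type*} [TopologicalSpace Z] [CompactSpace Z] {𝒮 : Set (Set Z)}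
    (h1 : ∀ S ∈ 𝒮, IsClosed S ∧ S.Nonempty) (h2 : ∀ S ∈ 𝒮, ∀ z, ∃ S' ∈ 𝒮, S' ⊆ S ∧ z ∉ S') :
    ∀ S ∈ 𝒮, ¬S.Countable := fun S hS e => by
  obtain ⟨f, hf⟩ := e.exists_eq_range (h1 S hS).2
  choose! g g1 g2 g3 using h2
  obtain ⟨u, u0, u1⟩ : ∃ u : ℕ → Set Z, u 0 = S ∧ ∀ n, u (n + 1) = g (u n) (f n) :=
    ⟨fun n => n.rec S fun n s => g s (f n), rfl, fun _ => rfl⟩
  have u2 : ∀ n, u n ∈ 𝒮 := fun n => by
    induction n with
    | zero => rwa [u0]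
    | succ n ih => exact u1 n ▸ g1 _ ih _
  obtain ⟨z, hz⟩ := IsCompact.nonempty_iInter_of_sequence_nonempty_isCompact_isClosed u
    (fun n => u1 n ▸ g2 _ (u2 n) _) (fun n => (h1 _ (u2 n)).2) (h1 _ (u2 0)).1.isCompact
    fun n => (h1 _ (u2 n)).1
  rw [mem_iInter] at hz
  obtain ⟨n, rfl⟩ : z ∈ range f := hf ▸ u0 ▸ hz 0
  exact g3 _ (u2 n) _ (u1 n ▸ hz (n + 1))

lemma evw (y : ℤ → Fin 3) (r : ℕ) : ∀ᶠ x in 𝓝 y, ∀ j : ℤ, |j| ≤ r → x j = y j := by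
  simp only [abs_le, ← mem_Icc]
  exact (finite_Icc _ _).eventually_all.2 fun j _ =>
    ((continuous_apply j).tendsto y).eventually (p := fun a => a = y j) (by simp)

variable {G : Type} [Group G] {τ φ : G}

lemma nA.fin {F : Set G} (hF : F.Finite) (r : ℕ) : {x | nA τ φ F r x}.Finite :=
  (hF.biUnion fun f _ => nr.fin (τ := τ) (φ := φ) r f).subset fun _ ⟨f, f1, f2⟩ => mem_biUnion f1 f2

lemma Lv.C_mul {L : Lv τ φ} {c : G → Fin 3} (h : c ∈ L.C) (g : G) : (fun x => c (x * g)) ∈ L.C :=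
  let ⟨ζ, h1, h2⟩ := h; ⟨fun x => ζ (x * g), fun _ => (h1 _).mul, fun _ => h2 _⟩

theorem BS.sub (h : BS τ φ) : ∃ X : Set (ℤ → Fin 3), IsClosed X ∧ X.Nonempty ∧
    (∀ x ∈ X, ∀ n, (fun j => x (j + n)) ∈ X) ∧
    (∀ x ∈ X, ∀ y ∈ X, ∀ r : ℕ, ∃ n, ∀ j : ℤ, |j| ≤ r → x (j + n) = y j) ∧
    ∀ y ∈ X, ∀ r : ℕ, ∃ N : ℕ, ∃ S ⊆ X, IsClosed S ∧ ¬S.Countable ∧
      ∀ x ∈ S, (∀ j : ℤ, |j| ≤ r → x j = y j) ∧ ∀ n ≥ N, x n ≠ x (2 * n) := by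
  classical
  obtain ⟨L0, a, b1, b2⟩ := h.base
  choose st g s1 s2 s3 using h.step
  obtain ⟨L, l0, l1⟩ : ∃ L : ℕ → Lv τ φ, L 0 = L0 ∧ ∀ k, L (k + 1) = st (L k) k :=
    ⟨fun n => n.rec L0 fun k L => st L k, rfl, fun _ => rfl⟩
  have c1 : Antitone fun k => (L k).C := antitone_nat_of_succ_le fun k => l1 k ▸ s1 _ _
  have c2 : ∀ N F c k, F.Finite → F.ncard ≤ k → (L k).E N F c → ∀ l, k ≤ l → (L l).E N F c :=
    fun N F c k e1 e2 e3 l hl => by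
      induction hl with
      | refl => exact e3
      | step hl ih => exact l1 _ ▸ s3 _ _ N F c e1 (e2.trans hl) ih
  have c3 : ∀ k, ∀ c ∈ (L k).C, ∀ p, c (φ * p) ≠ c p := fun k c hc p => by
    simpa using b1 _ (Lv.C_mul (l0 ▸ c1 k.zero_le hc) p)
  have c4 : ∀ N F c k, (L k).E N F c → ∃ c' ∈ (L k).C, (∀ n ≥ N, c' (τ ^ n) ≠ c' (τ ^ (2 * n))) ∧
      ∀ f ∈ F, c' f = c f := fun N F c k e => by
    obtain ⟨ζ, z1, -, z2, z3⟩ := e ∅ (fun _ => (L k).df) (by simp [nA]) (by simp) (by simp [nA])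
      (by simp [nA])
    refine ⟨_, ⟨ζ, z1, fun _ => rfl⟩, fun n hn => ?_, z3⟩
    rw [← z2 (2 * n) (by omega), pow_mul, ← ((show SemiconjBy φ τ (τ ^ 2) from h.h1).pow_right n).eq]
    exact (c3 k _ ⟨ζ, z1, fun _ => rfl⟩ _).symm
  obtain ⟨Z, hZ⟩ : ∃ Z : ℕ → Set (ℤ → Fin 3), ∀ k x, x ∈ Z k ↔ ∃ c ∈ (L k).C, ∀ j : ℤ, |j| ≤ k →
    x j = c (τ ^ j) := ⟨_, fun _ _ => Iff.rfl⟩
  have z1 : ∀ k, IsClosed (Z k) := fun k => isClosed_iff_frequently.2 fun x hx => by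
    obtain ⟨y, y1, y2⟩ := (hx.and_eventually (evw x k)).exists
    obtain ⟨c, y3, y4⟩ := (hZ _ _).1 y1
    exact (hZ _ _).2 ⟨c, y3, fun j e => (y2 j e).symm.trans (y4 j e)⟩
  have z2 : Antitone Z := fun k l e x hx => let ⟨c, y3, y4⟩ := (hZ _ _).1 hx
    (hZ _ _).2 ⟨c, c1 e y3, fun j e' => y4 j (by omega)⟩
  obtain ⟨W, hW⟩ : ∃ W : ℕ → Set G → (G → Fin 3) → Set (ℤ → Fin 3), ∀ N F c x, x ∈ W N F c ↔
    (∀ n ≥ N, x n ≠ x (2 * n)) ∧ ∀ j : ℤ, τ ^ j ∈ F → x j = c (τ ^ j) := ⟨_, fun _ _ _ _ => Iff.rfl⟩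
  have w1 : ∀ N F c, IsClosed (W N F c) := fun N F c => isClosed_iff_frequently.2 fun x hx => by
    refine (hW _ _ _ _).2 ⟨fun n hn => ?_, fun j hj => ?_⟩
    · obtain ⟨y, y1, y2⟩ := (hx.and_eventually (evw x (2 * n))).exists
      rw [← y2 _ (by rw [abs_le]; omega), ← y2 _ (by rw [abs_le]; omega)]
      exact ((hW _ _ _ _).1 y1).1 n hn
    · obtain ⟨y, y1, y2⟩ := (hx.and_eventually (evw x j.natAbs)).exists
      rw [← y2 _ (by simp), ((hW _ _ _ _).1 y1).2 j hj]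
  have w2 : ∀ N F c k, F.Finite → F.ncard ≤ k → (L k).E N F c → ((⋂ l, Z l) ∩ W N F c).Nonempty :=
    fun N F c k e1 e2 e3 => by
      rw [iInter_inter]
      refine IsCompact.nonempty_iInter_of_sequence_nonempty_isCompact_isClosed _
        (fun l => inter_subset_inter_left _ (z2 l.le_succ)) (fun l => ?_)
        ((z1 _).inter (w1 _ _ _)).isCompact fun l => (z1 _).inter (w1 _ _ _)
      obtain ⟨c', k1, k2, k3⟩ := c4 N F c _ (c2 N F c k e1 e2 e3 _ (le_max_left k l))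
      exact ⟨fun j => c' (τ ^ j), (hZ _ _).2 ⟨c', c1 (le_max_right k l) k1, fun _ _ => rfl⟩,
        (hW _ _ _ _).2 ⟨fun n hn => by exact_mod_cast k2 n hn, fun j => k3 _⟩⟩
  have w3 : ∀ N, ∀ S ∈ {S | ∃ F c k, F.Finite ∧ F.ncard ≤ k ∧ (L k).E N F c ∧
      S = (⋂ l, Z l) ∩ W N F c}, ¬S.Countable := fun N => unc (by
    rintro _ ⟨F, c, k, e1, e2, e3, rfl⟩
    exact ⟨(isClosed_iInter z1).inter (w1 _ _ _), w2 N F c k e1 e2 e3⟩) (by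
    rintro _ ⟨F, c, k, e1, e2, e3, rfl⟩ z
    replace e3 := c2 N F c k e1 e2 e3 _ k.le_succ
    obtain ⟨t, ht⟩ := h.h3 _ ((nr.fin (τ := τ) (φ := φ) (3 * (L (k + 1)).R) 1).union
      (nA.fin (τ := τ) (φ := φ) e1 (4 * (L (k + 1)).R)).inv)
    obtain ⟨c0, k1, -⟩ := c4 N F c _ e3
    obtain ⟨p, hp⟩ : ∃ p, c0 p ≠ z (-t) := by
      by_contra! e
      exact c3 _ _ k1 1 (by rw [e, e])
    have k2 : ¬nA τ φ F (4 * (L (k + 1)).R) (τ ^ t)⁻¹ := fun e => (ht t le_rfl 0).2.1 (.inr (by simpa))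
    have k3 : (τ ^ t)⁻¹ ∉ F := fun e => k2 ⟨_, e, nr.rfl⟩
    refine ⟨_, ⟨F ∪ {(τ ^ t)⁻¹}, Function.update c (τ ^ t)⁻¹ (c0 p), k + 1, e1.union (toFinite _),
      (ncard_union_le _ _).trans (by simpa), Lv.add _ e3 (Lv.C_mul k1 (τ ^ t * p)) ?_ ?_
        (fun f hf => Function.update_of_ne (ne_of_mem_of_not_mem hf k3) _ _) (by simp), rfl⟩,
      inter_subset_inter_right _ fun x hx => ?_, fun e => hp ?_⟩
    · rintro f hf ⟨_, rfl, e⟩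
      exact k2 ⟨f, hf, e.symm⟩
    · rintro _ rfl ⟨n, -, j, e⟩
      exact (ht t le_rfl j).2.2 n (.inl (by simpa using e.symm.one))
    · rw [hW] at hx ⊢
      exact ⟨hx.1, fun j hj => (hx.2 j (.inl hj)).trans
        (Function.update_of_ne (ne_of_mem_of_not_mem hj k3) _ _)⟩
    · simpa using (((hW _ _ _ _).1 e.2).2 (-t) (.inr (by simp))).symm)
  refine ⟨⋂ l, Z l, isClosed_iInter z1, (w2 a ∅ 0 0 finite_empty (by simp)
    (l0 ▸ b2 a le_rfl 0)).mono inter_subset_left, fun x hx n => mem_iInter.2 fun k => ?_,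
    fun x hx y hy r => ?_, fun y hy r => ?_⟩
  · obtain ⟨c, k1, k2⟩ := (hZ _ _).1 (mem_iInter.1 hx (k + n.natAbs))
    exact (hZ _ _).2 ⟨_, Lv.C_mul (c1 (by omega) k1) (τ ^ n), fun j e => by
      rw [k2 _ (by rw [abs_le] at *; omega), zpow_add]⟩
  · obtain ⟨c, k1, k2⟩ := (hZ _ _).1 (mem_iInter.1 hy r)
    obtain ⟨c', k3, k4⟩ := (hZ _ _).1 (mem_iInter.1 hx (r + 1 + g (L r) r))
    obtain ⟨n, n1, n2⟩ := s2 _ r c k1 c' (l1 r ▸ c1 (by omega) k3)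
    exact ⟨n, fun j e => by
      rw [k4 _ (by rw [abs_le] at *; omega), k2 j e, ← n2 _ (by simpa using nr_z (τ := τ) (φ := φ) e 1), zpow_add,
        zpow_natCast]⟩
  obtain ⟨c, k1, k2⟩ := (hZ _ _).1 (mem_iInter.1 hy (2 * r + 1))
  have f1 : ((fun j : ℤ => τ ^ j) '' Icc (-r) r).Finite := (finite_Icc _ _).image _
  obtain ⟨t, ht⟩ := h.h3 _ (nA.fin (τ := τ) (φ := φ) f1 (3 * (L (2 * r + 1)).R))
  refine ⟨max a t, _, inter_subset_left, (isClosed_iInter z1).inter (w1 _ _ _), w3 (max a t) _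
    ⟨_, c, 2 * r + 1, finite_empty.union f1, ?_, Lv.add _ (c2 _ _ c 0 finite_empty (by simp)
      (l0 ▸ b2 _ (le_max_left a t) c) _ (by omega)) k1 (by simp) ?_ (fun _ _ => rfl) fun _ _ => rfl,
      rfl⟩, fun x hx => ?_⟩
  · rw [empty_union]
    exact (ncard_image_le (finite_Icc _ _)).trans (by
      rw [← Finset.coe_Icc, ncard_coe_finset, Int.card_Icc]; omega)
  · rintro f hf ⟨n, hn, j, e⟩
    exact (ht n (le_of_max_le_right hn) j).2.1 ⟨f, hf, e.symm⟩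
  · have := (hW _ _ _ _).1 hx.2
    exact ⟨fun j e => (this.2 j (.inr ⟨j, abs_le.1 e, rfl⟩)).trans (k2 j (by omega)).symm, this.1⟩

end Pool.Agent.H.MP_3e1352_an
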