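import Pool.Agent.H.MP_3e1352_an.D

namespace Pool.Agent.H.MP_3e1352_an

open Set Filter Topology
open Pool.Agent.H.MP_c19a8f_an hiding X T A

theorem sys : ∃ (X : Set (ℤ → Fin 3)) (_ : IsClosed X) (_ : X.Nonempty) (T : X ≃ₜ X),
    (∀ (n : ℤ) x j, ((T ^ n) x).1 j = x.1 (j + n)) ∧ (∀ x, Dense (range fun n : ℤ => (T ^ n) x)) ∧
    ∀ U : Set X, IsOpen U → U.Nonempty → ∃ F : Set ℤ, F.Finite ∧ ∃ K ⊆ U, Pf K ∧
      ∀ x ∈ K, {n | 0 ≤ n ∧ x.1 n = x.1 (2 * n)} ⊆ F := by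
  obtain ⟨τ, φ, h⟩ := bs
  obtain ⟨X, h1, h2, h3, h4, h5⟩ := h.sub
  have : CompactSpace X := isCompact_iff_compactSpace.1 h1.isCompact
  have a1 : ∀ n, Continuous fun x : X => (⟨_, h3 x.1 x.2 n⟩ : X) := fun n =>
    Continuous.subtype_mk (f := fun (x : X) j => x.1 (j + n)) (continuous_pi fun j =>
      (continuous_apply (j + n)).comp continuous_subtype_val) _
  have a2 : ∀ (y : X), ∀ U ∈ 𝓝 y, ∃ r : ℕ, ∀ x : X, (∀ j : ℤ, |j| ≤ r → x.1 j = y.1 j) → x ∈ U :=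
    fun y U hU => by
      by_contra! k
      choose f f1 f2 using k
      have : Tendsto f atTop (𝓝 y) := tendsto_subtype_rng.2 (tendsto_pi_nhds.2 fun j =>
        tendsto_const_nhds.congr' ((eventually_ge_atTop j.natAbs).mono fun r hr =>
          (f1 r j (by rw [abs_le]; omega)).symm))
      exact (this.eventually hU).exists.elim f2
  let T : X ≃ₜ X := ⟨⟨fun x => ⟨_, h3 x.1 x.2 1⟩, fun x => ⟨_, h3 x.1 x.2 (-1)⟩,
    fun x => Subtype.ext (by simp), fun x => Subtype.ext (by simp)⟩, a1 _, a1 _⟩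
  have a3 : ∀ (n : ℤ) x j, ((T ^ n) x).1 j = x.1 (j + n) := fun n => by
    induction n using Int.induction_on with
    | zero => simp
    | succ n ih =>
      intro x j
      rw [zpow_add_one, Homeomorph.mul_apply, ih, ← add_assoc]; rfl
    | pred n ih =>
      intro x j
      rw [zpow_sub_one, Homeomorph.mul_apply, ih, ← add_sub_assoc]; rfl
  refine ⟨X, h1, h2, T, a3, fun x y => mem_closure_iff_nhds.2 fun U hU => ?_, fun U u1 ⟨y, hy⟩ => ?_⟩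
  · obtain ⟨r, hr⟩ := a2 y U hU
    obtain ⟨n, hn⟩ := h4 _ x.2 _ y.2 r
    exact ⟨_, hr _ fun j e => (a3 n x j).trans (hn j e), n, rfl⟩
  obtain ⟨r, hr⟩ := a2 y U (u1.mem_nhds hy)
  obtain ⟨N, S, s1, s2, s3, s4⟩ := h5 _ y.2 r
  obtain ⟨K, k1, k2, k3⟩ := exists_perfect_nonempty_of_isClosed_of_not_countable
    (s2.preimage (continuous_subtype_val (p := (· ∈ X)))) fun e => s3 ((e.image Subtype.val).mono
      fun x hx => mem_image_of_mem Subtype.val (x := ⟨x, s1 hx⟩) hx)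
  refine ⟨Ico 0 N, finite_Ico _ _, K, fun x hx => hr x (s4 _ (k3 hx)).1, ⟨k2, k1.acc⟩,
    fun x hx n ⟨n1, n2⟩ => ⟨n1, not_le.1 fun e => ?_⟩⟩
  lift n to ℕ using n1
  exact (s4 _ (k3 hx)).2 n (by exact_mod_cast e) n2

theorem main (b : ℤ → ℤ) (σ : ℕ → ℕ) (hb : ∀ G, Fr (range b) G (σ G))
    (fb : ∀ R : ℕ, {n | |b n| ≤ R}.Finite) {Y : Set (ℤ → Fin 3)} (h1 : IsClosed Y) (h2 : Y.Nonempty)
    (h3 : ∀ U : Set Y, IsOpen U → U.Nonempty → ∃ F : Set ℤ, F.Finite ∧ ∃ K ⊆ U, Pf K ∧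
      ∀ x ∈ K, {n | 0 ≤ n ∧ x.1 n = x.1 (2 * n)} ⊆ F) :
    ∃ (Φ : Y ≃ₜ MP_c19a8f_an.X σ) (F : Set ℤ), F.Finite ∧
      ∀ x, {n | 0 ≤ n ∧ x.1 n = x.1 (2 * n)} ∩ MP_c19a8f_an.A b (Φ x) ⊆ F := by
  have : CompactSpace Y := isCompact_iff_compactSpace.1 h1.isCompact
  have := h2.to_subtype
  have := ne hb
  have ev : ∀ (n : ℤ) (y : Y), ∀ᶠ x in 𝓝 y, (0 ≤ n ∧ x.1 n = x.1 (2 * n)) ↔
      (0 ≤ n ∧ y.1 n = y.1 (2 * n)) := fun n y =>
    ((continuous_subtype_val.tendsto y).eventually (evw y.1 (2 * n.natAbs))).mono fun x e => by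
      rw [e n (by rw [abs_le]; omega), e (2 * n) (by rw [abs_le]; omega)]
  obtain ⟨F1, f1, K1, -, k1, l1⟩ := h3 univ isOpen_univ univ_nonempty
  obtain ⟨F2, f2, K2, -, k2, l2⟩ := propD b hb fb univ isOpen_univ univ_nonempty
  obtain ⟨Φ, h⟩ := bf (fun (x : Y) (y : MP_c19a8f_an.X σ) =>
      {n | 0 ≤ n ∧ x.1 n = x.1 (2 * n)} ∩ MP_c19a8f_an.A b y ⊆ F1 ∪ F2)
    (fun U u1 u2 => by
      obtain ⟨F, f, K, k0, k, l⟩ := h3 U u1 u2
      refine ⟨K, k0, k, fun y0 hy => ?_⟩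
      filter_upwards [f.eventually_all.2 fun n _ => A_ev b n y0] with y e x hx n hn
      exact hy x hx ⟨hn.1, (e n (l x hx hn.1)).1 hn.2⟩)
    (fun U u1 u2 => by
      obtain ⟨F, f, K, k0, k, l⟩ := propD b hb fb U u1 u2
      refine ⟨K, k0, k, fun y0 hy => ?_⟩
      filter_upwards [f.eventually_all.2 fun n _ => ev n y0] with y e x hx n hn
      exact hy x hx ⟨(e n (l x hx hn.2)).1 hn.1, hn.2⟩)
    ⟨isClopen_univ, isClopen_univ, Or.inr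
      ⟨⟨K1, subset_univ _, k1, fun x hx y _ n hn => Or.inl (l1 x hx hn.1)⟩,
        ⟨K2, subset_univ _, k2, fun x hx y _ n hn => Or.inr (l2 x hx hn.2)⟩⟩⟩
    (fun x => isClosed_iff_frequently.2 fun y hy n hn => by
      obtain ⟨z, z1, z2⟩ := (hy.and_eventually (A_ev b n y)).exists
      exact z1 ⟨hn.1, z2.2 hn.2⟩)
  exact ⟨Φ, _, f1.union f2, h⟩

end Pool.Agent.H.MP_3e1352_an
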